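import Mathlib

set_option autoImplicit false

namespace Pool.Agent.Results.MP_739a3c_co.Bound

open Matrix

/-- Coefficient vector of the equation `d i + ... + d (j-1) = d k + ... + d (l-1)`
(indices start at 0). -/
def row (n i j k l : ℕ) : Fin n → ℝ := fun t =>
  (if i ≤ t.val ∧ t.val < j then 1 else 0) - if k ≤ t.val ∧ t.val < l then 1 else 0

def UZ {n : ℕ} (v : Fin n → ℝ) : Prop := v = 0 ∨ ∃ i, v = Pi.single i 1

lemma UZ.sub {n : ℕ} {v : Fin (n + 1) → ℝ} (h : UZ v) (j : Fin (n + 1)) :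
    UZ (v ∘ j.succAbove) := by
  rcases h with rfl | ⟨i, rfl⟩
  · exact .inl rfl
  · rcases Fin.eq_self_or_eq_succAbove j i with rfl | ⟨k, rfl⟩
    · left; ext t; simp
    · right; refine ⟨k, ?_⟩; ext t; simp [Pi.single_apply]

lemma tu : ∀ (n : ℕ) (a b : Fin n → Fin n → ℝ), (∀ s, UZ (a s)) → (∀ s, UZ (b s)) →
    |(of (a - b)).det| ≤ 1 := by
  intro n
  induction n with
  | zero => simp
  | succ n ih =>
    have key : ∀ a b : Fin (n + 1) → Fin (n + 1) → ℝ, (∀ s, UZ (a s)) → (∀ s, UZ (b s)) →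
        ∀ s, b s = 0 → |(of (a - b)).det| ≤ 1 := fun a b ha hb s hs => by
      rw [det_succ_row _ s]
      rcases ha s with h | ⟨j, h⟩
      · simp [h, hs]
      · rw [Finset.sum_eq_single j (fun i _ c => by simp [h, hs, c]) (by simp)]
        have := ih (fun r => a (s.succAbove r) ∘ j.succAbove)
          (fun r => b (s.succAbove r) ∘ j.succAbove) (fun r => (ha _).sub j) fun r => (hb _).sub j
        simp only [abs_mul, abs_pow, abs_neg, abs_one, one_pow, of_apply, Pi.sub_apply, h, hs,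
          Pi.single_eq_same, Pi.zero_apply, sub_zero, one_mul]
        exact this
    intro a b ha hb
    by_cases h1 : ∃ s, b s = 0
    · obtain ⟨s, hs⟩ := h1; exact key a b ha hb s hs
    by_cases h2 : ∃ s, a s = 0
    · obtain ⟨s, hs⟩ := h2
      have := key b a hb ha s hs
      rwa [show of (b - a) = -of (a - b) by ext; simp, det_neg, abs_mul, abs_pow, abs_neg, abs_one,
        one_pow, one_mul] at this
    push Not at h1 h2
    rw [exists_mulVec_eq_zero_iff.1 ⟨fun _ => 1, fun c => by simpa using congrFun c 0, ?_⟩]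
    · simp
    · ext s
      obtain ⟨i, hi⟩ := (ha s).resolve_left (h2 s)
      obtain ⟨j, hj⟩ := (hb s).resolve_left (h1 s)
      simp [mulVec, dotProduct, hi, hj]

def P (n a : ℕ) : Fin n → ℝ := fun t => if t.val < a then 1 else 0

lemma tuP (n : ℕ) (a b : Fin n → ℕ) (ha : ∀ s, a s ≤ n) (hb : ∀ s, b s ≤ n) :
    |(of fun s => P n (a s) - P n (b s)).det| ≤ 1 := by
  let U : ℕ → Fin n → ℝ := fun a i => if i.val + 1 = a then 1 else 0
  let L : Matrix (Fin n) (Fin n) ℝ := of fun i t => if t ≤ i then 1 else 0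
  have hU : ∀ a, UZ (U a) := fun a => by
    by_cases h : ∃ i : Fin n, i.val + 1 = a
    · obtain ⟨i, rfl⟩ := h
      right; refine ⟨i, ?_⟩; ext t; simp [U, Pi.single_apply, Fin.ext_iff]
    · left; ext t; exact if_neg fun c => h ⟨t, c⟩
  have hP : ∀ a ≤ n, U a ᵥ* L = P n a := fun a h => by
    ext t
    rcases a with _ | a
    · simp [U, P, vecMul, dotProduct]
    · rw [vecMul, dotProduct, Finset.sum_eq_single ⟨a, h⟩ (fun i _ c => by
        simp [U, show i.val ≠ a from fun k => c (Fin.ext k)]) (by simp)]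
      show (if a + 1 = a + 1 then (1 : ℝ) else 0) * (if t.val ≤ a then 1 else 0) = _
      simp [P, Nat.lt_succ_iff]
  have hL : L.det = 1 := by
    rw [det_of_isLowerTriangular L fun i j h => if_neg (not_le.2 h)]; simp [L]
  have := tu n (fun s => U (a s)) (fun s => U (b s)) (fun _ => hU _) fun _ => hU _
  suffices e : of ((fun s => U (a s)) - fun s => U (b s)) * L =
      of fun s => P n (a s) - P n (b s) by rwa [← e, det_mul, hL, mul_one]
  ext s t
  rw [of_apply, ← hP _ (ha s), ← hP _ (hb s), ← sub_vecMul]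
  rfl

lemma two (n : ℕ) (a b c d : Fin n → ℕ) (ha : ∀ s, a s ≤ n) (hb : ∀ s, b s ≤ n)
    (hc : ∀ s, c s ≤ n) (hd : ∀ s, d s ≤ n) :
    |(of fun s => (P n (a s) - P n (b s)) + (P n (c s) - P n (d s))).det| ≤ 2 ^ n := by
  have := (detRowAlternating : (Fin n → ℝ) [⋀^Fin n]→ₗ[ℝ] ℝ).map_add_univ
    (fun s => P n (a s) - P n (b s)) fun s => P n (c s) - P n (d s)
  refine (congrArg abs this).trans_le ((Finset.abs_sum_le_sum_abs _ _).trans
    ((Finset.sum_le_card_nsmul _ _ 1 fun S _ => ?_).trans (by simp)))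
  have := tuP n (S.piecewise a c) (S.piecewise b d)
    (fun s => by by_cases h : s ∈ S <;> simp [h, ha, hc])
    (fun s => by by_cases h : s ∈ S <;> simp [h, hb, hd])
  convert! this using 3
  ext s
  by_cases h : s ∈ S <;> simp [h]

theorem result (m : ℕ) (i j k l : Fin m → ℕ)
    (h : ∀ s, i s < j s ∧ j s ≤ k s ∧ k s < l s ∧ l s ≤ m + 1)
    (hi : LinearIndependent ℝ fun s => row (m + 1) (i s) (j s) (k s) (l s))
    (d : Fin (m + 1) → ℝ) (hd : ∀ t, 0 < d t)
    (he : ∀ s, row (m + 1) (i s) (j s) (k s) (l s) ⬝ᵥ d = 0) (t : Fin (m + 1)) :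
    ∑ u, d u ≤ 2 ^ m * d t := by
  let B : Matrix (Fin (m + 1)) (Fin (m + 1)) ℝ :=
    of (Fin.cons (Pi.single t 1) fun s => row (m + 1) (i s) (j s) (k s) (l s))
  have hB : ∀ v : Fin (m + 1) → ℝ, (v ᵥ* B) ⬝ᵥ d = v 0 * d t := fun v => by
    rw [← dotProduct_mulVec, dotProduct, Fin.sum_univ_succ]
    simp [B, mulVec, he]
  have h0 : B.det ≠ 0 := fun c => by
    obtain ⟨v, hv, e⟩ := exists_vecMul_eq_zero_iff.2 c
    have v0 : v 0 = 0 := by simpa [e, (hd t).ne'] using hB v
    refine hv (funext fun s => Fin.cases v0 (Fintype.linearIndependent_iff.1 hi (v ∘ Fin.succ) ?_) s)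
    ext u
    simpa [B, vecMul, dotProduct, Fin.sum_univ_succ, v0] using congrFun e u
  have h1 : 1 ≤ |B.det| := by
    obtain ⟨z, hz⟩ : ∃ z : ℤ, B.det = z := by
      have : ∀ s u, ∃ z : ℤ, B s u = z := fun s u => by
        refine Fin.cases ?_ (fun s => ?_) s
        · exact ⟨if u = t then 1 else 0, by simp [B, Pi.single_apply]⟩
        · exact ⟨(if i s ≤ u.val ∧ u.val < j s then 1 else 0) -
            if k s ≤ u.val ∧ u.val < l s then 1 else 0, by simp [B, row]⟩
      choose Z hZ using this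
      exact ⟨(of Z).det, by rw [Int.cast_det]; congr 1; ext; exact hZ _ _⟩
    rw [hz] at h0 ⊢
    exact_mod_cast Int.one_le_abs (by exact_mod_cast h0)
  have h2 := hB (Bᵀ.cramer fun _ => 2)
  rw [← mulVec_transpose, mulVec_cramer, det_transpose, cramer_transpose_apply] at h2
  have h3 := two (m + 1) (Fin.cons (m + 1) j) (Fin.cons 0 i) (Fin.cons (m + 1) k) (Fin.cons 0 l)
    (Fin.cases le_rfl fun s => by have := h s; simp; omega)
    (Fin.cases (by simp) fun s => by have := h s; simp; omega)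
    (Fin.cases le_rfl fun s => by have := h s; simp; omega)
    (Fin.cases (by simp) fun s => by have := h s; simp; omega)
  rw [show (of _ : Matrix _ _ ℝ) = B.updateRow 0 fun _ => 2 from ?_] at h3
  · have h4 : 0 ≤ ∑ u, d u := Finset.sum_nonneg fun u _ => (hd u).le
    have h5 := congrArg abs h2
    rw [smul_dotProduct, smul_eq_mul, dotProduct, ← Finset.mul_sum, abs_mul, abs_mul, abs_mul,
      abs_of_nonneg h4, abs_of_pos (hd t), abs_two] at h5
    have := mul_le_mul_of_nonneg_right h3 (hd t).le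
    rw [pow_succ] at this
    nlinarith
  · ext s u
    refine Fin.cases ?_ (fun s => ?_) s
    · simp [P, u.2]; norm_num
    · have := h s
      simp only [of_apply, Fin.cons_succ, updateRow_ne (Fin.succ_ne_zero s), B, P, row,
        Pi.add_apply, Pi.sub_apply]
      split_ifs <;> first | omega | norm_num

end Pool.Agent.Results.MP_739a3c_co.Bound
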